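import Mathlib
import Pool.Agent.Y257.Psh

/-!
# The exceptional set of a plurisubharmonic function has Lebesgue measure zero

For every connected open set Ω of complex n-space (in particular for every bounded pseudoconvex
domain) and every plurisubharmonic φ on Ω that is not identically -∞, the set E(φ) of the points
of Ω at which φ admits no differential test from above has Lebesgue measure zero.

Proof.  Slide the paraboloids of opening M from above until they touch φ on a closed ball K.  The
sub-mean value property on balls shows that the map sending a contact point to the vertex of the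
touching paraboloid is Lipschitz with a constant depending only on n, at scales s so small that
balls of radius s stay in K; hence the contact points fill a fixed fraction of every small ball,
and the set of points without touching paraboloid has no point of density.
-/

set_option autoImplicit false

open Set Filter Topology Metric MeasureTheory

namespace Pool.Agent.Results.MP_725b87_an.NullExceptional

/-- complex n-space with its Hermitian norm -/
abbrev Cn (n : ℕ) : Type := EuclideanSpace ℂ (Fin n)

/-- The point z + e^{iθ} w on the boundary circle of the complex disc z + D w. -/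
noncomputable def circ {n : ℕ} (z w : Cn n) (θ : ℝ) : Cn n :=
  z + Complex.exp ((θ : ℂ) * Complex.I) • w

/-- Plurisubharmonic functions on an open set Ω, with values in [-∞, ∞).  The function is upper
semicontinuous on Ω and, for every closed complex disc {z + ζ w, |ζ| ≤ 1} contained in Ω, the
value at the centre z is at most the mean over the boundary circle.  The mean of an upper
semicontinuous function is the infimum of the means of its continuous majorants. -/
def IsPSH {n : ℕ} (Ω : Set (Cn n)) (φ : Cn n → EReal) : Prop :=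
  (∀ z ∈ Ω, φ z ≠ ⊤) ∧ UpperSemicontinuousOn φ Ω ∧
  ∀ z w : Cn n, (∀ ζ : ℂ, ‖ζ‖ ≤ 1 → z + ζ • w ∈ Ω) →
    ∀ h : ℝ → ℝ, Continuous h → (∀ θ ∈ Icc 0 (2 * Real.pi), φ (circ z w θ) ≤ (h θ : EReal)) →
      φ z ≤ (((2 * Real.pi)⁻¹ * ∫ θ in (0 : ℝ)..(2 * Real.pi), h θ : ℝ) : EReal)

/-- A differential test from above for φ at z: a function q of class C^2 on an open neighbourhood
V ⊆ Ω of z with (φ - q)(z) = sup over V of (φ - q). -/
def HasUpperTest {n : ℕ} (Ω : Set (Cn n)) (φ : Cn n → EReal) (z : Cn n) : Prop :=
  ∃ (V : Set (Cn n)) (q : Cn n → ℝ), IsOpen V ∧ V ⊆ Ω ∧ z ∈ V ∧ ContDiffOn ℝ 2 q V ∧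
    ∀ y ∈ V, φ y - (q y : EReal) ≤ φ z - (q z : EReal)

/-- The exceptional set E(φ): the points of Ω without a differential test from above. -/
def exceptional {n : ℕ} (Ω : Set (Cn n)) (φ : Cn n → EReal) : Set (Cn n) :=
  {z | z ∈ Ω ∧ ¬ HasUpperTest Ω φ z}

/-- a touching paraboloid is a differential test from above -/
theorem hasUpperTest_of_touched {n : ℕ} {Ω : Set (Cn n)} {φ : Cn n → EReal} {z : Cn n}
    (h : Pool.Agent.Y257.Touch.Touched Ω φ z) : HasUpperTest Ω φ z := by
  obtain ⟨V, hV, hVΩ, hzV, M, y, hcon⟩ := h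
  refine ⟨V, fun w => M / 2 * ‖w - y‖ ^ 2, hV, hVΩ, hzV, ?_, ?_⟩
  · apply ContDiff.contDiffOn
    exact contDiff_const.mul ((contDiff_id.sub contDiff_const).norm_sq ℝ)
  · intro w hw
    have h1 := hcon w hw
    have e : ((M / 2 * (‖w - y‖ ^ 2 - ‖z - y‖ ^ 2) : ℝ) : EReal) =
        ((M / 2 * ‖w - y‖ ^ 2 : ℝ) : EReal) - ((M / 2 * ‖z - y‖ ^ 2 : ℝ) : EReal) := by
      rw [← EReal.coe_sub]; congr 1; ring
    rw [e] at h1
    show φ w - ((M / 2 * ‖w - y‖ ^ 2 : ℝ) : EReal) ≤ φ z - ((M / 2 * ‖z - y‖ ^ 2 : ℝ) : EReal)
    generalize hA : (M / 2 * ‖w - y‖ ^ 2 : ℝ) = A at h1 ⊢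
    generalize hB : (M / 2 * ‖z - y‖ ^ 2 : ℝ) = B at h1 ⊢
    apply EReal.sub_le_of_le_add
    refine h1.trans (le_of_eq ?_)
    rw [sub_eq_add_neg, sub_eq_add_neg, add_assoc, add_comm (-(B : EReal))]

/-- **Affirmative answer to Q1**, on every connected open set Ω of complex n-space: if φ is
plurisubharmonic on Ω and not identically -∞, then E(φ) has Lebesgue measure zero. -/
theorem result : ∀ (n : ℕ) (Ω : Set (Cn n)), IsOpen Ω → IsConnected Ω →
    ∀ φ : Cn n → EReal, IsPSH Ω φ → (∃ z ∈ Ω, φ z ≠ ⊥) → volume (exceptional Ω φ) = 0 := by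
  intro n Ω hΩ hconn φ hφ hne
  have h := Pool.Agent.Y257.Psh.psh_ae_touched hΩ hconn.isPreconnected (u := φ) hφ hne
  refine measure_mono_null ?_ h
  rintro z ⟨hz, hzt⟩
  exact ⟨hz, fun ht => hzt (hasUpperTest_of_touched ht)⟩

end Pool.Agent.Results.MP_725b87_an.NullExceptional
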